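import Pool.Agent.Helper11.Gon.Defs

set_option autoImplicit false

/-!
# The structures `PN ℤ` and `PN k[X]`
-/

noncomputable section

open Polynomial

namespace Helper11.Gon

universe u

/-- `ℤ` with the absolute value and the positive integers. -/
def pnInt : PN ℤ where
  N := Int.natAbs
  P := {a | 0 < a}
  N_mul := Int.natAbs_mul
  N_eq_zero a := Int.natAbs_eq_zero
  N_unit a h := Int.isUnit_iff_natAbs_eq.2 h
  tors u := ⟨2, by norm_num, Int.units_sq u⟩
  zero_notMem := by simp
  one_mem := by simp
  mul_mem a b ha hb := mul_pos (a := a) ha hb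
  sign a ha := by
    rcases lt_or_gt_of_ne ha with h | h
    · right
      simpa using h
    · exact Or.inl h
  N_sub a b ha hb := by
    simp only [Set.mem_ofPred_eq] at ha hb
    omega
  sub_one a ha h1 := by
    simp only [Set.mem_ofPred_eq] at ha ⊢
    omega
  rep b hb a hab := by
    simp only [Set.mem_ofPred_eq] at hb
    refine ⟨a % b, ?_, ?_, ?_⟩
    · have h0 := Int.emod_nonneg a hb.ne'
      have h1 : a % b ≠ 0 := fun h => hab (Int.dvd_of_emod_eq_zero h)
      show 0 < a % b
      omega
    · have h0 := Int.emod_nonneg a hb.ne'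
      have h1 := Int.emod_lt_of_pos a hb
      omega
    · exact Int.dvd_self_sub_emod
  fin b hb := by
    simp only [Set.mem_ofPred_eq] at hb
    have : NeZero b.natAbs := ⟨by omega⟩
    exact Finite.of_equiv _ (Int.quotientSpanEquivZMod b).toEquiv.symm

/-- `k[X]` for a finite field `k`, with `2 ^ natDegree` and the nonzero polynomials. -/
def pnPoly (k : Type u) [Field k] [Finite k] : PN k[X] where
  N := fun f => open Classical in if f = 0 then 0 else 2 ^ f.natDegree
  P := {f | f ≠ 0}
  N_mul a b := by
    by_cases ha : a = 0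
    · simp [ha]
    by_cases hb : b = 0
    · simp [hb]
    simp [ha, hb, natDegree_mul ha hb, pow_add]
  N_eq_zero a := by
    by_cases ha : a = 0 <;> simp [ha]
  N_unit a h := by
    by_cases ha : a = 0
    · simp [ha] at h
    · simp only [ha, if_false] at h
      have h0 : a.natDegree = 0 := by
        by_contra hne
        have := Nat.one_lt_two_pow hne
        omega
      rw [Polynomial.isUnit_iff_degree_eq_zero, degree_eq_natDegree ha, h0]
      rfl
  tors u := by
    obtain ⟨c, hc, hcu⟩ := Polynomial.isUnit_iff.1 u.isUnit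
    obtain ⟨c', rfl⟩ := hc
    have : Finite kˣ := inferInstance
    refine ⟨Nat.card kˣ, Nat.card_pos.ne', ?_⟩
    ext1
    push_cast
    rw [← hcu, ← map_pow, ← Units.val_pow_eq_pow_val, pow_card_eq_one']
    simp
  zero_notMem := by simp
  one_mem := by simp
  mul_mem a b ha hb := mul_ne_zero ha hb
  sign a ha := Or.inl ha
  N_sub a b ha hb := by
    simp only [Set.mem_ofPred_eq] at ha hb
    by_cases h : a - b = 0
    · simp [h]
    simp only [h, ha, hb, if_false]
    have h1 := natDegree_sub_le a b
    rcases le_max_iff.1 h1 with h2 | h2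
    · exact le_max_of_le_left (Nat.pow_le_pow_right (by norm_num) h2)
    · exact le_max_of_le_right (Nat.pow_le_pow_right (by norm_num) h2)
  sub_one a ha h1 := sub_ne_zero.2 h1
  rep b hb a hab := by
    simp only [Set.mem_ofPred_eq] at hb
    have hr : a % b ≠ 0 := fun h => hab ((EuclideanDomain.mod_eq_zero).1 h)
    refine ⟨a % b, hr, ?_, ?_⟩
    · simp only [hr, hb, if_false]
      refine Nat.pow_lt_pow_right (by norm_num) ?_
      have := EuclideanDomain.mod_lt a hb
      exact natDegree_lt_natDegree hr this
    · exact ⟨a / b, by rw [sub_eq_iff_eq_add, EuclideanDomain.div_add_mod]⟩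
  fin b hb := by
    simp only [Set.mem_ofPred_eq] at hb
    have : Finite (degreeLT k (b.natDegree)) := by
      have : Finite (Fin b.natDegree → k) := inferInstance
      exact Finite.of_equiv _ (degreeLTEquiv k b.natDegree).toEquiv.symm
    refine Finite.of_surjective
      (fun f : degreeLT k (b.natDegree) => Ideal.Quotient.mk (Ideal.span {b}) (f : k[X])) ?_
    intro y
    obtain ⟨a, rfl⟩ := Ideal.Quotient.mk_surjective y
    refine ⟨⟨a % b, ?_⟩, ?_⟩
    · rw [mem_degreeLT, ← degree_eq_natDegree hb]
      exact EuclideanDomain.mod_lt a hb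
    · show Ideal.Quotient.mk (Ideal.span {b}) (a % b) = _
      rw [Ideal.Quotient.eq, Ideal.mem_span_singleton]
      refine ⟨-(a / b), ?_⟩
      have := EuclideanDomain.div_add_mod a b
      linear_combination this

end Helper11.Gon
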